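import Mathlib
import Pool.Agent.Helper18.SG.Goals

/-! Project SG (MP_d3128a_ag): packet S, the super rows of degree `b`. -/

set_option autoImplicit false

namespace Pool.Agent.Helper39.SG

open Finset Pool.Agent.Lead.Sh Pool.Agent.Helper43.Ah Pool.Agent.Helper43.Gm
open Pool.Agent.Helper18.SG

lemma sig_inj {b : ℕ} (hb : 1 ≤ b) : Function.Injective (sig b) := by
  rintro ⟨i, j⟩ ⟨i', j'⟩ h
  have h1 : b * i + j % b = b * i' + j' % b := congrArg Prod.fst h
  have h2 : j / b = j' / b := congrArg Prod.snd h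
  have h3 : j % b < b := Nat.mod_lt _ hb
  have h4 : j' % b < b := Nat.mod_lt _ hb
  have h5 : i = i' := by
    have e1 : (b * i + j % b) / b = i := by
      rw [Nat.mul_add_div hb, Nat.div_eq_of_lt h3, Nat.add_zero]
    have e2 : (b * i' + j' % b) / b = i' := by
      rw [Nat.mul_add_div hb, Nat.div_eq_of_lt h4, Nat.add_zero]
    rw [← e1, ← e2, h1]
  subst h5
  have h6 : j % b = j' % b := by omega
  have h7 : j = j' := by
    rw [← Nat.div_add_mod j b, ← Nat.div_add_mod j' b, h2, h6]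
  rw [h7]

lemma inj_pull {b : ℕ} (hb : 1 ≤ b) {D : Finset (ℕ × ℕ)} {R : Finset Row} {P : ℕ → ℂ × ℂ}
    (h : InjAt (D.image (sig b)) R P) (c : ℕ × ℕ → ℂ)
    (hc : ∀ r ∈ R, ∑ d ∈ D, c d * E r.2 (sig b d) (P r.1).1 (P r.1).2 = 0) :
    ∀ d ∈ D, c d = 0 := by
  intro d hd
  have hi := sig_inj hb
  have key := h (Function.extend (sig b) c 0) (by
    intro r hr
    rw [sum_image (fun x _ y _ hxy => hi hxy)]
    refine Eq.trans ?_ (hc r hr)
    refine sum_congr rfl (fun x _ => ?_)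
    rw [hi.extend_apply]) (sig b d) (mem_image_of_mem _ hd)
  rwa [hi.extend_apply] at key

lemma coeff_monos (D : Finset (ℕ × ℕ)) (c : ℕ × ℕ → ℂ)
    (h : ∑ d ∈ D, c d • ((MvPolynomial.X 0 : MvPolynomial (Fin 2) ℂ) ^ d.1 *
      MvPolynomial.X 1 ^ d.2) = 0) : ∀ d ∈ D, c d = 0 := by
  intro d hd
  have hex : ∀ d' : ℕ × ℕ, ex d' = ex d ↔ d' = d := by
    intro d'
    constructor
    · intro h1
      have h2 := DFunLike.congr_fun h1 0
      have h3 := DFunLike.congr_fun h1 1
      simp [ex] at h2 h3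
      exact Prod.ext h2 h3
    · rintro rfl; rfl
  have h1 := congrArg (MvPolynomial.coeff (ex d)) h
  rw [MvPolynomial.coeff_sum, MvPolynomial.coeff_zero, sum_eq_single_of_mem d hd] at h1
  · have h2 : (MvPolynomial.X 0 : MvPolynomial (Fin 2) ℂ) ^ d.1 * MvPolynomial.X 1 ^ d.2 =
        MvPolynomial.monomial (ex d) 1 := by
      rw [MvPolynomial.X_pow_eq_monomial, MvPolynomial.X_pow_eq_monomial,
        MvPolynomial.monomial_mul, one_mul]
      rfl
    rw [h2, MvPolynomial.coeff_smul, MvPolynomial.coeff_monomial, if_pos rfl] at h1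
    simpa using h1
  · intro d' _ hne
    have h2 : (MvPolynomial.X 0 : MvPolynomial (Fin 2) ℂ) ^ d'.1 * MvPolynomial.X 1 ^ d'.2 =
        MvPolynomial.monomial (ex d') 1 := by
      rw [MvPolynomial.X_pow_eq_monomial, MvPolynomial.X_pow_eq_monomial,
        MvPolynomial.monomial_mul, one_mul]
      rfl
    rw [h2, MvPolynomial.coeff_smul, MvPolynomial.coeff_monomial,
      if_neg (fun h3 => hne ((hex d').1 h3)), smul_zero]

lemma map_ff (b : ℕ) (t u e : ℂ) (d : ℕ × ℕ) :
    MvPolynomial.map (Polynomial.evalRingHom e) (ff b t u d) =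
      (MvPolynomial.C u + MvPolynomial.X 1) ^ (d.2 / b) *
        ((MvPolynomial.C t + MvPolynomial.X 0) ^ b -
          MvPolynomial.C e * (MvPolynomial.C u + MvPolynomial.X 1)) ^ d.1 *
        (MvPolynomial.C t + MvPolynomial.X 0) ^ (d.2 % b) := by
  unfold ff
  simp

lemma coeff_ff (b : ℕ) (t u e : ℂ) (d o : ℕ × ℕ) :
    (MvPolynomial.coeff (ex o) (ff b t u d)).eval e =
      MvPolynomial.coeff (ex o) ((MvPolynomial.C u + MvPolynomial.X 1) ^ (d.2 / b) *
        ((MvPolynomial.C t + MvPolynomial.X 0) ^ b -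
          MvPolynomial.C e * (MvPolynomial.C u + MvPolynomial.X 1)) ^ d.1 *
        (MvPolynomial.C t + MvPolynomial.X 0) ^ (d.2 % b)) := by
  rw [← map_ff, MvPolynomial.coeff_map]
  rfl

theorem goalS (h1 : GoalS1) (h2 : GoalS2) (h3 : GoalS3) : GoalS := by
  intro b D m s hb hD hI
  obtain ⟨P, hP⟩ := hI
  obtain ⟨e, he, hinj⟩ := poly_inj
    (fun (r : ↥(rows m s)) (d : ↥D) =>
      MvPolynomial.coeff (ex (r : Row).2) (ff b (P (r : Row).1).1 (P (r : Row).1).2 d)) (by
    intro c hc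
    set c2 : ℕ × ℕ → ℂ := fun d => if h : d ∈ D then c ⟨d, h⟩ else 0 with hc2
    have hc2' : ∀ d : ↥D, c2 d = c d := by
      intro d; simp only [hc2]; rw [dif_pos d.2]
    have h4 := inj_pull hb hP c2 (by
      intro r hr
      refine Eq.trans ?_ (hc ⟨r, hr⟩)
      rw [← sum_coe_sort D]
      refine sum_congr rfl (fun d _ => ?_)
      rw [hc2', h1 b _ _ _ _ hb])
    funext d
    rw [← hc2', Pi.zero_apply]
    exact h4 d d.2)
  refine ⟨fun k => ((P k).1 ^ b - e * (P k).2, (P k).1), ?_⟩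
  intro c hc
  obtain ⟨c', hc'⟩ := h3 b D c hb hD
  have hz : ∀ d ∈ D, c' d = 0 := by
    have h5 := hinj (fun d => c' d * e ^ ((d : ℕ × ℕ).2 / b)) (by
      intro r
      have hr := (mem_rows m s r).1 r.2
      have h6 := h2 b (m (r : Row).1) (P (r : Row).1).1 (P (r : Row).1).2 e D c (by
        intro o ho
        exact hc ((r : Row).1, o) ((mem_rows m s _).2 ⟨hr.1, ho⟩)) (r : Row).2 hr.2
      have h7 := hc' (MvPolynomial (Fin 2) ℂ)
        ((MvPolynomial.C (P (r : Row).1).1 + MvPolynomial.X 0) ^ b -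
          MvPolynomial.C e * (MvPolynomial.C (P (r : Row).1).2 + MvPolynomial.X 1))
        (MvPolynomial.C (P (r : Row).1).1 + MvPolynomial.X 0)
      rw [sum_congr rfl (fun d _ => MvPolynomial.smul_eq_C_mul _ _)] at h7
      rw [h7, MvPolynomial.coeff_sum] at h6
      rw [sum_coe_sort D (fun d => c' d * e ^ (d.2 / b) *
        (MvPolynomial.coeff (ex (r : Row).2)
          (ff b (P (r : Row).1).1 (P (r : Row).1).2 d)).eval e)]
      refine Eq.trans ?_ h6
      refine sum_congr rfl (fun d _ => ?_)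
      rw [coeff_ff, sub_sub_cancel, mul_pow (MvPolynomial.C e), ← MvPolynomial.C_pow, mul_assoc (MvPolynomial.C (e ^ (d.2 / b))),
        mul_assoc (MvPolynomial.C (e ^ (d.2 / b))), MvPolynomial.coeff_smul,
        MvPolynomial.coeff_C_mul, smul_eq_mul, mul_assoc])
    intro d hd
    have h6 := congrFun h5 ⟨d, hd⟩
    rw [Pi.zero_apply] at h6
    rcases mul_eq_zero.1 h6 with h7 | h7
    · exact h7
    · exact absurd h7 (pow_ne_zero _ he)
  apply coeff_monos D c
  rw [hc' (MvPolynomial (Fin 2) ℂ) (MvPolynomial.X 0) (MvPolynomial.X 1)]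
  refine sum_eq_zero (fun d hd => ?_)
  rw [hz d hd, zero_smul]

end Pool.Agent.Helper39.SG
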