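import Pool.Agent.Helper52.SG.Goals3
import Mathlib

/-!
# Project SG (MP_0a002a_al), packet HIG: the lower central series of a torsion group with a splitting
automorphism of prime order becomes stationary
-/

set_option autoImplicit false

namespace Pool.Agent.Helper39.SG.HIG

open Subgroup Pool.Agent.Helper52.SG
open scoped commutatorElement

theorem mapα {B : Type} [Group B] (α : MulAut B) (n : ℕ) (x : B) (hx : x ∈ Gm B n) :
    α x ∈ Gm B n := by
  have h : (Gm B n).comap (α : B ≃* B).toMonoidHom = Gm B n :=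
    (inferInstance : (Gm B n).Characteristic).fixed α
  rw [← h] at hx
  exact hx

theorem three {G : Type} [Group G] (N H₁ H₂ H₃ : Subgroup G) [N.Normal]
    (h1 : ⁅⁅H₂, H₃⁆, H₁⁆ ≤ N) (h2 : ⁅⁅H₃, H₁⁆, H₂⁆ ≤ N) : ⁅⁅H₁, H₂⁆, H₃⁆ ≤ N := by
  have hmap : ∀ K : Subgroup G, K ≤ N ↔ K.map (QuotientGroup.mk' N) = ⊥ := fun K => by
    rw [Subgroup.map_eq_bot_iff, QuotientGroup.ker_mk']
  rw [hmap, Subgroup.map_commutator, Subgroup.map_commutator] at h1 h2 ⊢
  exact Subgroup.commutator_commutator_eq_bot_of_rotate h1 h2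

theorem comm_le (B : Type) [Group B] (n : ℕ) : ∀ m, ⁅Gm B m, Gm B n⁆ ≤ Gm B (m + n + 1) := by
  induction n with
  | zero => exact fun m => le_rfl
  | succ n ih =>
    intro m
    have h0 : ⁅Gm B m, Gm B (n + 1)⁆ = ⁅⁅Gm B n, (⊤ : Subgroup B)⁆, Gm B m⁆ := by
      rw [Subgroup.commutator_comm]
      rfl
    rw [h0]
    refine three _ _ _ _ ?_ ?_
    · rw [Subgroup.commutator_comm (⊤ : Subgroup B)]
      have h1 := ih (m + 1)
      have h2 : m + 1 + n + 1 = m + (n + 1) + 1 := by ring
      rw [h2] at h1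
      exact h1
    · have h1 := Subgroup.commutator_mono (ih m) (le_refl (⊤ : Subgroup B))
      exact h1

section

variable {B : Type} [Group B] {L : Type} [LieRing L] (D : LieOf B L)

theorem c_one (n : ℕ) : D.c n 1 = 0 := (D.zero n 1 (one_mem _)).2 (one_mem _)

theorem c_inv (n : ℕ) (x : B) (hx : x ∈ Gm B n) : D.c n x⁻¹ = -D.c n x := by
  have h := D.mul n x x⁻¹ hx (inv_mem hx)
  rw [mul_inv_cancel, c_one] at h
  exact (neg_eq_of_add_eq_zero_right h.symm).symm

theorem c_pow (n m : ℕ) (x : B) (hx : x ∈ Gm B n) : D.c n (x ^ m) = m • D.c n x := by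
  induction m with
  | zero => rw [pow_zero, c_one, zero_smul]
  | succ m ih => rw [pow_succ, D.mul n _ _ (pow_mem hx m) hx, ih, succ_nsmul]

theorem c_prod (n : ℕ) (f : ℕ → B) (hf : ∀ j, f j ∈ Gm B n) (k : ℕ) :
    ((List.range k).map f).prod ∈ Gm B n ∧
      D.c n ((List.range k).map f).prod = ∑ j ∈ Finset.range k, D.c n (f j) := by
  induction k with
  | zero =>
    rw [List.range_zero, List.map_nil, List.prod_nil, Finset.range_zero, Finset.sum_empty]
    exact ⟨one_mem _, c_one D n⟩
  | succ k ih =>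
    rw [List.range_succ, List.map_append, List.prod_append, List.map_cons, List.map_nil,
      List.prod_cons, List.prod_nil, mul_one, Finset.sum_range_succ]
    exact ⟨mul_mem ih.1 (hf k), by rw [D.mul n _ _ ih.1 (hf k), ih.2]⟩

/-- induction on the elements of `L` -/
theorem ind (P : L → Prop) (h0 : P 0) (hadd : ∀ x y, P x → P y → P (x + y))
    (hneg : ∀ x, P x → P (-x)) (hc : ∀ n x, x ∈ Gm B n → P (D.c n x)) (l : L) : P l := by
  have hl : l ∈ AddSubgroup.closure {l | ∃ n x, x ∈ Gm B n ∧ l = D.c n x} := by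
    rw [D.span]
    trivial
  induction hl using AddSubgroup.closure_induction with
  | mem x hx =>
    obtain ⟨n, y, hy, rfl⟩ := hx
    exact hc n y hy
  | zero => exact h0
  | add x y _ _ hx hy => exact hadd x y hx hy
  | neg x _ hx => exact hneg x hx

include D in
/-- no torsion of order `p` -/
theorem tors (p : ℕ) (hp : p.Prime) (hB : ∀ x : B, IsOfFinOrder x ∧ ¬ p ∣ orderOf x) (l : L)
    (hl : p • l = 0) : l = 0 := by
  have h : ∃ m : ℕ, ¬ p ∣ m ∧ m • l = 0 := by
    refine ind D (fun l => ∃ m : ℕ, ¬ p ∣ m ∧ m • l = 0) ?_ ?_ ?_ ?_ l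
    · exact ⟨1, fun h => hp.one_lt.ne' (Nat.dvd_one.1 h), smul_zero _⟩
    · rintro x y ⟨m, hm, hmx⟩ ⟨k, hk, hky⟩
      refine ⟨m * k, fun h => ?_, ?_⟩
      · rcases (hp.dvd_mul).1 h with h | h
        · exact hm h
        · exact hk h
      · rw [smul_add, mul_smul, mul_smul, hky, smul_zero, add_zero, smul_comm, hmx, smul_zero]
    · rintro x ⟨m, hm, hmx⟩
      exact ⟨m, hm, by rw [smul_neg, hmx, neg_zero]⟩
    · intro n x hx
      refine ⟨orderOf x, (hB x).2, ?_⟩
      rw [← c_pow D n _ x hx, pow_orderOf_eq_one, c_one]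
  obtain ⟨m, hm, hml⟩ := h
  have h1 : addOrderOf l ∣ p := addOrderOf_dvd_of_nsmul_eq_zero hl
  have h2 : addOrderOf l ∣ m := addOrderOf_dvd_of_nsmul_eq_zero hml
  have h3 : addOrderOf l ∣ Nat.gcd p m := Nat.dvd_gcd h1 h2
  rw [(Nat.Prime.coprime_iff_not_dvd hp).2 hm] at h3
  exact AddMonoid.addOrderOf_eq_one_iff.1 (Nat.dvd_one.1 h3)

theorem c_mem (n : ℕ) : ∀ x ∈ Gm B n, D.c n x ∈ LI (⊤ : AddSubgroup L) n := by
  induction n with
  | zero => exact fun x _ => AddSubgroup.mem_top _
  | succ n ih =>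
    intro x hx
    rw [Subgroup.mem_lowerCentralSeries_succ_iff] at hx
    have key : x ∈ Gm B (n + 1) ∧ D.c (n + 1) x ∈ LI (⊤ : AddSubgroup L) (n + 1) := by
      induction hx using Subgroup.closure_induction with
      | mem y hy =>
        obtain ⟨a, ha, g, -, rfl⟩ := hy
        have hg : g ∈ Gm B 0 := Subgroup.mem_top g
        refine ⟨Subgroup.commutator_mem_commutator ha (Subgroup.mem_top g), ?_⟩
        have h1 := D.lie n 0 a g ha hg
        rw [Nat.add_zero] at h1
        rw [← h1]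
        exact mem_br (ih a ha) (AddSubgroup.mem_top _)
      | one => exact ⟨one_mem _, by rw [c_one]; exact zero_mem _⟩
      | mul y z _ _ hy hz =>
        exact ⟨mul_mem hy.1 hz.1, by
          rw [D.mul _ _ _ hy.1 hz.1]
          exact add_mem hy.2 hz.2⟩
      | inv y _ hy =>
        exact ⟨inv_mem hy.1, by
          rw [c_inv D _ _ hy.1]
          exact neg_mem hy.2⟩
    exact key.2

end

theorem t (hBAS : S_BAS) (hLIEB : S_LIEB) : S_HIG := by
  intro B _ α p hp hα hsplit hB
  obtain ⟨L, _, ⟨D⟩⟩ := hLIEB B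
  have : Fact p.Prime := ⟨hp⟩
  obtain ⟨ψ, hψ⟩ := D.lift L (fun n x => D.c n (α x))
    (fun n x y hx hy => by
      rw [map_mul, D.mul n _ _ (mapα α n x hx) (mapα α n y hy)])
    (fun n x hx => by
      have h1 : x ∈ Gm B n := Subgroup.lowerCentralSeries_antitone _ (Nat.le_succ n) hx
      exact (D.zero n _ (mapα α n x h1)).2 (mapα α (n + 1) x hx))
  have hmem : ∀ j n x, x ∈ Gm B n → (α ^ j) x ∈ Gm B n := fun j n x hx => mapα (α ^ j) n x hx
  have hit : ∀ j n x, x ∈ Gm B n → ψ^[j] (D.c n x) = D.c n ((α ^ j) x) := by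
    intro j n x hx
    induction j with
    | zero => rw [Function.iterate_zero_apply, pow_zero]; rfl
    | succ j ih =>
      rw [Function.iterate_succ_apply', ih, hψ n _ (hmem j n x hx), pow_succ']
      rfl
  obtain ⟨n, hn⟩ := hBAS p L ψ
    (fun x y => by
      refine ind D (fun x => ∀ y, ψ ⁅x, y⁆ = ⁅ψ x, ψ y⁆) ?_ ?_ ?_ ?_ x y
      · intro y
        rw [zero_lie, map_zero, zero_lie]
      · intro x x' hx hx' y
        rw [add_lie, map_add, map_add, add_lie, hx, hx']
      · intro x hx y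
        rw [neg_lie, map_neg, map_neg, neg_lie, hx]
      · intro m x hx y
        refine ind D (fun y => ψ ⁅D.c m x, y⁆ = ⁅ψ (D.c m x), ψ y⁆) ?_ ?_ ?_ ?_ y
        · rw [lie_zero, map_zero, lie_zero]
        · intro y y' hy hy'
          rw [lie_add, map_add, map_add, lie_add, hy, hy']
        · intro y hy
          rw [lie_neg, map_neg, map_neg, lie_neg, hy]
        · intro n y hy
          have h1 : ⁅x, y⁆ ∈ Gm B (m + n + 1) :=
            comm_le B n m (Subgroup.commutator_mem_commutator hx hy)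
          rw [D.lie m n x y hx hy, hψ _ _ h1, hψ m x hx, hψ n y hy,
            D.lie m n _ _ (mapα α m x hx) (mapα α n y hy), map_commutatorElement])
    (fun x => by
      refine ind D (fun x => ψ^[p] x = x) ?_ ?_ ?_ ?_ x
      · exact iterate_map_zero ψ p
      · intro x y hx hy
        rw [iterate_map_add, hx, hy]
      · intro x hx
        rw [iterate_map_neg, hx]
      · intro n x hx
        rw [hit p n x hx, hα]
        rfl)
    (fun x => by
      refine ind D (fun x => ∑ j ∈ Finset.range p, ψ^[j] x = 0) ?_ ?_ ?_ ?_ x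
      · exact Finset.sum_eq_zero fun j _ => iterate_map_zero ψ j
      · intro x y hx hy
        rw [Finset.sum_congr rfl fun j _ => iterate_map_add ψ j x y, Finset.sum_add_distrib, hx,
          hy, add_zero]
      · intro x hx
        rw [Finset.sum_congr rfl fun j _ => iterate_map_neg ψ j x, Finset.sum_neg_distrib, hx,
          neg_zero]
      · intro n x hx
        rw [Finset.sum_congr rfl fun j _ => hit j n x hx,
          ← (c_prod D n (fun j => (α ^ j) x) (fun j => hmem j n x hx) p).2, hsplit, c_one])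
    (fun x hx => tors D p hp hB x hx)
  refine ⟨n, fun x hx => (D.zero n x hx).1 ?_⟩
  have h := c_mem D n x hx
  rw [hn] at h
  exact AddSubgroup.mem_bot.1 h

end Pool.Agent.Helper39.SG.HIG
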