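import Pool.Agent.Helper52.SG.Goals2
import Mathlib

/-!
# Project SG (MP_0a002a_al), packet ME: there is no normal subgroup of order prime to `r` in a
counterexample of least order to Thompson's theorem
-/

set_option autoImplicit false

namespace Pool.Agent.Helper39.SG.ME

open Subgroup Pool.Agent.Helper52.SG

theorem inj {G : Type} [Group G] [Finite G] (r : ℕ) (hr : r.Prime) (P E : Subgroup G) [E.Normal]
    (hP : IsPGroup r P) (hE : ¬ r ∣ Nat.card E) :
    ∀ x ∈ P, QuotientGroup.mk' E x = 1 → x = 1 := by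
  intro x hx h1
  have hxE : x ∈ E := (QuotientGroup.eq_one_iff x).1 h1
  have h2 : orderOf x ∣ Nat.card E := by
    have h3 : orderOf (⟨x, hxE⟩ : E) ∣ Nat.card E := orderOf_dvd_natCard _
    rwa [Subgroup.orderOf_mk] at h3
  obtain ⟨k, hk⟩ := hP ⟨x, hx⟩
  have hk' : x ^ r ^ k = 1 := by
    have := congrArg Subtype.val hk
    simpa using this
  have h4 : orderOf x ∣ r ^ k := orderOf_dvd_of_pow_eq_one hk'
  have h5 : Nat.Coprime (r ^ k) (Nat.card E) :=
    Nat.Coprime.pow_left k ((Nat.Prime.coprime_iff_not_dvd hr).2 hE)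
  have h6 : orderOf x ∣ 1 := by
    rw [← h5]
    exact Nat.dvd_gcd h4 h2
  exact orderOf_eq_one_iff.1 (Nat.dvd_one.1 h6)

theorem t (hPNQ : S_PNQ) (hPNE : S_PNE) (hNRQ : S_NRQ) (hJP : S_JP) (hZP : S_ZP) : S_ME := by
  intro G _ r P h E hEn hE
  have : Finite G := h.fin
  by_contra hne
  have hr := h.hr
  have hinj := inj r hr P E h.pg hE
  obtain ⟨-, -, hJle, -, hJmap, -⟩ := hJP G r hr P
  obtain ⟨-, hZmap, -⟩ := hZP G r hr P
  have hJ := hJmap (G ⧸ E) (QuotientGroup.mk' E) hinj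
  have hZ := hZmap (G ⧸ E) (QuotientGroup.mk' E) hinj
  have hcard : Nat.card (G ⧸ E) < Nat.card G := by
    rw [Subgroup.card_eq_card_quotient_mul_card_subgroup E]
    have h1 : 1 < Nat.card E := by
      rw [Subgroup.one_lt_card_iff_ne_bot]
      exact hne
    have h2 : 0 < Nat.card (G ⧸ E) := Nat.card_pos
    nlinarith
  have hpg : IsPGroup r (P.map (QuotientGroup.mk' E)) := h.pg.map _
  have hidx : ¬ r ∣ (P.map (QuotientGroup.mk' E)).index := fun h1 =>
    h.idx (h1.trans (Subgroup.index_map_dvd P (QuotientGroup.mk'_surjective E)))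
  have hN : PN r (normalizer ((JJ r (P.map (QuotientGroup.mk' E)) : Subgroup (G ⧸ E)) :
      Set (G ⧸ E))) := by
    rw [hJ]
    exact PN.mono (hNRQ G r E (JJ r P) hr hE (h.pg.to_le hJle)).1 (hPNQ G (G ⧸ E) r _ hr _ h.hJ)
  have hC : PN r (centralizer ((ZS (P.map (QuotientGroup.mk' E)) : Subgroup (G ⧸ E)) :
      Set (G ⧸ E))) := by
    rw [hZ]
    exact PN.mono (hNRQ G r E (ZS P) hr hE (h.pg.to_le inf_le_left)).2
      (hPNQ G (G ⧸ E) r _ hr _ h.hZ)
  exact h.bad (hPNE G r E hr hE (h.ind (G ⧸ E) hcard _ hpg hidx hN hC))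

end Pool.Agent.Helper39.SG.ME
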